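import Mathlib
import Pool.Agent.Helper21.SR.St

/-! SR module UNI -/

set_option autoImplicit false

namespace Pool.Agent.Helper34.SR

open Finset
open scoped Pointwise
open Pool.Agent.Helper21.SR

lemma uni_px_sum (hWk1 : StWk1) (A : Finset ℕ) (hA : ∀ x ∈ A, 0 < x) (hne : A.Nonempty) :
    ∀ x ∈ A, ∑ l ∈ A * A, px (wk A) A x l = 1 := by
  intro x hx
  have h1 := (hWk1 A 1 1 hA hne).2.1 x hx
  unfold px
  rw [Finset.sum_comm, ← h1]
  apply Finset.sum_congr rfl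
  intro y hy
  rw [Finset.sum_ite_eq (A * A) (x * y) (fun _ => wk A x y)]
  rw [if_pos (Finset.mul_mem_mul hx hy)]

lemma uni_py_sum (hWk1 : StWk1) (A : Finset ℕ) (hA : ∀ x ∈ A, 0 < x) (hne : A.Nonempty) (k : ℕ) :
    ∀ x ∈ A, ∑ l ∈ Ly A k, py (wk A) k x l = 1 := by
  intro x hx
  have h1 := (hWk1 A 1 1 hA hne).2.1 x hx
  unfold py Ly
  rw [← Finset.prod_univ_sum (fun _ : Fin k => A) (fun _ y => wk A x y)]
  simp [h1]

lemma uni_wk_nonneg (hWk1 : StWk1) (A : Finset ℕ) (hA : ∀ x ∈ A, 0 < x) (hne : A.Nonempty) :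
    ∀ x y, 0 ≤ wk A x y := fun x y =>
  ((hWk1 A 1 1 hA hne).1 x y).1.trans ((hWk1 A 1 1 hA hne).1 x y).2

lemma uni_mono (c g x : ℝ) (hc : 0 ≤ c) (hg : 0 ≤ g) (hgx : g ≤ x) :
    8 * g ^ 2 / (c + 7 * g / 2) ≤ 8 * x ^ 2 / (c + 7 * x / 2) := by
  have hx : 0 ≤ x := hg.trans hgx
  rcases eq_or_lt_of_le (show (0 : ℝ) ≤ c + 7 * g / 2 by positivity) with h | h
  · rw [← h, div_zero]
    positivity
  · have h2 : 0 < c + 7 * x / 2 := by linarith
    rw [div_le_div_iff₀ h h2]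
    have h3 : g ^ 2 ≤ x ^ 2 := pow_le_pow_left₀ hg hgx 2
    have h4 : g ^ 2 * x ≤ x ^ 2 * g := by nlinarith [mul_nonneg (mul_nonneg hg hx) (sub_nonneg.2 hgx)]
    nlinarith [mul_le_mul_of_nonneg_right h3 hc]

lemma uni_psi (hTT2 : StTT2) (A : Finset ℕ) (h : ℕ → ℝ) (hA : ∀ x ∈ A, 0 < x) (hne : A.Nonempty)
    (hadd : Addv A h) (w r : ℝ) (_hr0 : 0 ≤ r) (hr : r = Real.sqrt (Pc A h w))
    (hr2 : r ^ 2 = Pc A h w) (hp0 : 0 ≤ Pc A h (w / 2)) :
    Psi r (Pc A h (w / 2) ^ 2) ≤ Gc A h w := by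
  set p := Pc A h (w / 2) with hp
  have h0 : p ^ 2 ≤ Gc A h w := by
    have := hTT2 A h w p 0 hA hne hadd (by simp)
    rw [← hp] at this
    nlinarith [this]
  unfold Psi
  split_ifs with hq
  · set q := p ^ 2 with hqd
    have hΔ0 : 0 ≤ 1 + r ^ 2 - 2 * q := by nlinarith [sq_nonneg (1 - r)]
    rcases eq_or_lt_of_le hΔ0 with hΔ | hΔ
    · rw [← hΔ, div_zero]
      linarith
    · set Δ := 1 + r ^ 2 - 2 * q with hΔd
      set b := (r - q) / Δ with hb
      have hb0 : 0 ≤ b := div_nonneg (by linarith) hΔ.le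
      have hbΔ : b * Δ = r - q := by rw [hb]; field_simp
      have hb2 : 2 * b ≤ 1 := by
        have : 2 * b * Δ ≤ 1 * Δ := by
          have : 2 * (r - q) ≤ Δ := by rw [hΔd]; nlinarith [sq_nonneg (1 - r)]
          nlinarith
        exact le_of_mul_le_mul_right this hΔ
      have ha0 : 0 ≤ p * (1 - 2 * b) := mul_nonneg hp0 (by linarith)
      have h1 := hTT2 A h w (p * (1 - 2 * b)) b hA hne hadd (mul_nonneg ha0 hb0)
      rw [← hp, ← hr, ← hr2] at h1
      have h2 : 2 * (p * (1 - 2 * b)) * p + 4 * b * r - (p * (1 - 2 * b)) ^ 2 -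
          2 * b ^ 2 * (1 + r ^ 2) - 4 * (p * (1 - 2 * b)) * b * p =
          q + 4 * b * (r - q) - 2 * b * (b * Δ) := by
        rw [hΔd, hqd]; ring
      rw [h2, hbΔ] at h1
      have h3 : 2 * (r - q) ^ 2 / Δ = 2 * b * (r - q) := by
        rw [hb]; field_simp
      rw [h3]
      linarith
  · exact h0

theorem hUni (hWk1 : StWk1) (hJJ : StJJ) (hFou : StFou) (hTel : StTel) (hTT1 : StTT1)
    (hTT2 : StTT2) (hTT3 : StTT3) (hTTX : StTTX) (hNum : StNum) : StUni := by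
  intro A h hA hne hadd
  obtain ⟨J, hJ, hJf⟩ := hJJ
  have hwk := uni_wk_nonneg hWk1 A hA hne
  have hpx0 : ∀ x ∈ A, ∀ l ∈ A * A, 0 ≤ px (wk A) A x l := by
    intro x _ l _
    unfold px
    apply Finset.sum_nonneg
    intro y _
    split_ifs
    · exact hwk x y
    · exact le_rfl
  have hpy0 : ∀ x ∈ A, ∀ l ∈ Ly A 8, 0 ≤ py (wk A) 8 x l := by
    intro x _ l _
    unfold py
    exact Finset.prod_nonneg (fun i _ => hwk x (l i))
  have hpx1 := uni_px_sum hWk1 A hA hne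
  have hpy1 := uni_py_sum hWk1 A hA hne 8
  obtain ⟨hi1, he1, hi2, he2⟩ := hFou J ℕ (Fin 8 → ℕ) A (A * A) (Ly A 8) (px (wk A) A)
    (py (wk A) 8) h hJ hJf hne hpx0 hpy0 hpx1 hpy1
  obtain ⟨hcont, hPb, hAcb⟩ := hTT3 A h hne
  have hAx := hAcb ℕ (A * A) (px (wk A) A) hpx0 hpx1
  have hAy := hAcb (Fin 8 → ℕ) (Ly A 8) (py (wk A) 8) hpy0 hpy1
  have hmain := hTel (Pc A h) (fun w => 3 - Ac A (A * A) (px (wk A) A) h w -
    Ac A (Ly A 8) (py (wk A) 8) h w - Ac A (A * A) (px (wk A) A) h w *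
      Ac A (Ly A 8) (py (wk A) 8) h w) (999 / 1000) hcont (fun w => ⟨(hPb w).1, (hPb w).2.1⟩)
    hi1 hi2 (by
      intro w hw
      set P := Pc A h w with hP
      set p := Pc A h (w / 2) with hp
      set r := Real.sqrt P with hr
      have hP0 : 0 ≤ P := (hPb w).1
      have hP1 : P ≤ 1 := (hPb w).2.1
      have hp0 : 0 ≤ p := (hPb (w / 2)).1
      have hp1 : p ≤ 1 := (hPb (w / 2)).2.1
      have hr0 : 0 ≤ r := Real.sqrt_nonneg _
      have hr2 : r ^ 2 = P := Real.sq_sqrt hP0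
      have hr1 : r ≤ 1 := by
        rw [hr]
        exact Real.sqrt_le_one.2 hP1
      have hpr : 2 * p ^ 2 - 1 ≤ r ^ 2 := by
        rw [hr2]
        exact (hPb w).2.2
      obtain ⟨hg0, hnum⟩ := hNum p r hp0 hp1 hr0 hr1 hpr
      have hpsi := uni_psi hTT2 A h hA hne hadd w r hr0 hr hr2 hp0
      rw [← hp] at hpsi
      -- the label `x y0`
      have hG2 : 2 * p / (1 + p) ≤ Gc A h (w / 2) := by
        have h1 := hTT2 A h (w / 2) 0 (Real.sqrt p / (1 + p)) hA hne hadd (by simp)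
        rw [← hp] at h1
        have h2 : Real.sqrt p * Real.sqrt p = p := Real.mul_self_sqrt hp0
        have h3 : (1 + p) ≠ 0 := by positivity
        have h4 : 2 * 0 * Pc A h (w / 2 / 2) + 4 * (Real.sqrt p / (1 + p)) * Real.sqrt p - 0 ^ 2 -
            2 * (Real.sqrt p / (1 + p)) ^ 2 * (1 + p) -
              4 * 0 * (Real.sqrt p / (1 + p)) * Pc A h (w / 2 / 2) = 2 * p / (1 + p) := by
          have h5 : (Real.sqrt p / (1 + p)) ^ 2 * (1 + p) = p / (1 + p) := by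
            rw [div_pow, sq (Real.sqrt p), h2]
            field_simp
          have h6 : (Real.sqrt p / (1 + p)) * Real.sqrt p = p / (1 + p) := by
            rw [div_mul_eq_mul_div, h2]
          have h7 : 2 * p / (1 + p) = 2 * (p / (1 + p)) := by ring
          rw [h7]
          linear_combination 4 * h6 - 2 * h5
        rw [h4] at h1
        exact h1
      have hA1 : (2 * p / (1 + p)) ^ 2 ≤ Ac A (A * A) (px (wk A) A) h w := by
        refine le_trans ?_ (hTTX A h w hA hne hadd)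
        apply pow_le_pow_left₀ _ hG2
        positivity
      have hB1 : r ^ 2 + 8 * (Psi r (p ^ 2) - r ^ 2) ^ 2 / ((1 - r ^ 2) +
          7 * (Psi r (p ^ 2) - r ^ 2) / 2) ≤ Ac A (Ly A 8) (py (wk A) 8) h w := by
        obtain ⟨_, h2⟩ := hTT1 A h 8 w hA hne (by norm_num)
        refine le_trans ?_ h2
        rw [← hP, hr2]
        have h3 := uni_mono (1 - P) (Psi r (p ^ 2) - P) (Gc A h w - P) (by linarith)
          (by rw [← hr2]; exact hg0) (by linarith)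
        have h4 : ((8 : ℕ) : ℝ) * (Gc A h w - P) ^ 2 /
            ((1 - P) + (((8 : ℕ) : ℝ) - 1) * (Gc A h w - P) / 2) =
            8 * (Gc A h w - P) ^ 2 / ((1 - P) + 7 * (Gc A h w - P) / 2) := by
          norm_num
        rw [h4]
        linarith
      have ha0 : 0 ≤ (2 * p / (1 + p)) ^ 2 := by positivity
      have hb0 : 0 ≤ r ^ 2 + 8 * (Psi r (p ^ 2) - r ^ 2) ^ 2 / ((1 - r ^ 2) +
          7 * (Psi r (p ^ 2) - r ^ 2) / 2) := by
        have h1 : 0 ≤ 1 - r ^ 2 := by rw [hr2]; linarith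
        positivity
      have hab := mul_le_mul hA1 hB1 hb0 (ha0.trans hA1)
      rw [← hr2]
      linarith)
  rw [he1, he2] at hmain
  have hn : (0 : ℝ) < #A := by exact_mod_cast hne.card_pos
  have hc : 0 < J / (#A : ℝ) ^ 2 := by positivity
  have h1 : J / (#A : ℝ) ^ 2 * ((#A : ℝ) * E1 A (A * A) (px (wk A) A) h +
      (#A : ℝ) * E1 A (Ly A 8) (py (wk A) 8) h +
        E2 A (A * A) (Ly A 8) (px (wk A) A) (py (wk A) 8) h) ≤
      J / (#A : ℝ) ^ 2 * (2 * (999 / 1000) * E0 A h) := by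
    calc _ = _ := by ring
      _ ≤ _ := hmain
      _ = _ := by ring
  exact le_of_mul_le_mul_left h1 hc

end Pool.Agent.Helper34.SR
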